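import Mathlib
import Pool.Agent.Lib.MP_9c5702_nt.Mertens

-- part Pool.Agent.Lib.MP_24d810_nt.Model
section

/-! Residue class combinations, the model of independent primes, negative association. -/

set_option autoImplicit false

open Finset

namespace Pool.Agent.Lib.MP_24d810_nt

/-- Indicator of a residue class. -/
noncomputable def ind (a q t : ℕ) : ℝ := if t ≡ a [MOD q] then 1 else 0

/-- Combinations of indicators of residue classes modulo divisors of `Q`, of total mass at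
most `A`. -/
inductive Cl (Q : ℕ) : ℝ → (ℕ → ℝ) → Prop
  | ind (a q : ℕ) (h : q ∣ Q) : Cl Q 1 (ind a q)
  | add {A B : ℝ} {f g : ℕ → ℝ} : Cl Q A f → Cl Q B g → Cl Q (A + B) (fun t => f t + g t)
  | smul {A : ℝ} {f : ℕ → ℝ} (c : ℝ) : Cl Q A f → Cl Q (|c| * A) (fun t => c * f t)
  | mono {A B : ℝ} {f : ℕ → ℝ} : Cl Q A f → A ≤ B → Cl Q B f

variable {Q : ℕ}

theorem Cl.congr {A : ℝ} {f g : ℕ → ℝ} (h : Cl Q A f) (e : ∀ t, f t = g t) : Cl Q A g := by
  rwa [← funext e]

theorem Cl.nonneg {A : ℝ} {f : ℕ → ℝ} (h : Cl Q A f) : 0 ≤ A := by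
  induction h with
  | ind => exact zero_le_one
  | add _ _ h1 h2 => exact add_nonneg h1 h2
  | smul c _ h => positivity
  | mono _ h1 h2 => exact h2.trans h1

theorem cl_one : Cl Q 1 (fun _ => 1) :=
  (Cl.ind 0 1 (one_dvd Q)).congr fun t => by simp [ind, Nat.modEq_one]

theorem cl_zero : Cl Q 0 (fun _ => 0) :=
  ((Cl.smul 0 cl_one).mono (by simp)).congr fun t => by simp

theorem ind_mul (a q b r : ℕ) (hq : q ∣ Q) (hr : r ∣ Q) :
    Cl Q 1 (fun t => ind a q t * ind b r t) := by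
  by_cases h : ∃ s, s ≡ a [MOD q] ∧ s ≡ b [MOD r]
  · obtain ⟨s, h1, h2⟩ := h
    refine (Cl.ind s (Nat.lcm q r) (Nat.lcm_dvd hq hr)).congr fun t => ?_
    have : t ≡ s [MOD Nat.lcm q r] ↔ t ≡ a [MOD q] ∧ t ≡ b [MOD r] :=
      ⟨fun h => ⟨(h.of_dvd (Nat.dvd_lcm_left q r)).trans h1,
        (h.of_dvd (Nat.dvd_lcm_right q r)).trans h2⟩,
        fun h => Nat.mod_lcm (h.1.trans h1.symm) (h.2.trans h2.symm)⟩
    simp only [ind, this]
    by_cases h3 : t ≡ a [MOD q] <;> by_cases h4 : t ≡ b [MOD r] <;> simp [h3, h4]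
  · refine (cl_zero.mono zero_le_one).congr fun t => ?_
    simp only [ind]
    by_cases h3 : t ≡ a [MOD q] <;> by_cases h4 : t ≡ b [MOD r] <;> simp [h3, h4]
    exact h ⟨t, h3, h4⟩

theorem Cl.mul {A B : ℝ} {f g : ℕ → ℝ} (hf : Cl Q A f) (hg : Cl Q B g) :
    Cl Q (A * B) (fun t => f t * g t) := by
  induction hf with
  | ind a q hq =>
    rw [one_mul]
    induction hg with
    | ind b r hr => exact ind_mul a q b r hq hr
    | add _ _ h1 h2 => exact (h1.add h2).congr fun t => by ring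
    | smul c _ h => exact (h.smul c).congr fun t => by ring
    | mono _ h1 h2 => exact h2.mono h1
  | add _ _ h1 h2 => exact ((h1.add h2).mono (le_of_eq (by ring))).congr fun t => by ring
  | smul c _ h => exact ((h.smul c).mono (le_of_eq (by ring))).congr fun t => by ring
  | mono _ h1 h2 => exact h2.mono (mul_le_mul_of_nonneg_right h1 hg.nonneg)

theorem cl_sum {ι : Type*} (s : Finset ι) (A : ι → ℝ) (f : ι → ℕ → ℝ)
    (h : ∀ i ∈ s, Cl Q (A i) (f i)) : Cl Q (∑ i ∈ s, A i) (fun t => ∑ i ∈ s, f i t) := by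
  classical
  induction s using Finset.induction_on with
  | empty => simpa using cl_zero
  | insert a s ha ih =>
    simp only [sum_insert ha]
    exact (h a (mem_insert_self _ _)).add (ih fun i hi => h i (mem_insert_of_mem hi))

/-- Mean over a period. -/
noncomputable def mean (Q : ℕ) (f : ℕ → ℝ) : ℝ := (∑ t ∈ range Q, f t) / Q

theorem sum_ind (a q N : ℕ) (hq : 0 < q) :
    ∑ t ∈ range N, ind a q t = (N / q + if a % q < N % q then 1 else 0 : ℕ) := by
  rw [← Nat.count_modEq_card N hq a, Nat.count_eq_card_filter_range]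
  simp [ind, sum_boole]

theorem mean_ind (hQ : 0 < Q) (a q : ℕ) (h : q ∣ Q) : mean Q (ind a q) = 1 / q := by
  have hq := Nat.pos_of_dvd_of_pos h hQ
  obtain ⟨k, rfl⟩ := h
  have hk : 0 < k := Nat.pos_of_mul_pos_left hQ
  rw [mean, sum_ind _ _ _ hq, Nat.mul_mod_right, Nat.mul_div_cancel_left _ hq]
  simp only [not_lt_zero, if_false, add_zero, Nat.cast_mul]
  field_simp

theorem mean_add (f g : ℕ → ℝ) : mean Q (fun t => f t + g t) = mean Q f + mean Q g := by
  simp [mean, sum_add_distrib, add_div]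

theorem mean_smul (c : ℝ) (f : ℕ → ℝ) : mean Q (fun t => c * f t) = c * mean Q f := by
  simp [mean, ← mul_sum, mul_div_assoc]

theorem mean_mono {f g : ℕ → ℝ} (h : ∀ t, f t ≤ g t) : mean Q f ≤ mean Q g :=
  div_le_div_of_nonneg_right (sum_le_sum fun t _ => h t) (Nat.cast_nonneg _)

theorem mean_congr {f g : ℕ → ℝ} (h : ∀ t < Q, f t = g t) : mean Q f = mean Q g := by
  rw [mean, mean, sum_congr rfl fun t ht => h t (mem_range.1 ht)]

theorem Cl.disc (hQ : 0 < Q) {A : ℝ} {f : ℕ → ℝ} (h : Cl Q A f) (N : ℕ) :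
    |∑ t ∈ range N, f t - N * mean Q f| ≤ A := by
  induction h with
  | ind a q h =>
    have hq := Nat.pos_of_dvd_of_pos h hQ
    have hq' : (0 : ℝ) < q := by exact_mod_cast hq
    rw [mean_ind hQ a q h, sum_ind _ _ _ hq]
    have h1 : (N : ℝ) = q * (N / q : ℕ) + (N % q : ℕ) := by exact_mod_cast (Nat.div_add_mod N q).symm
    have h2 : ((N % q : ℕ) : ℝ) < q := by exact_mod_cast Nat.mod_lt N hq
    have h3 : (0 : ℝ) ≤ (N % q : ℕ) := Nat.cast_nonneg _
    have h4 : (N : ℝ) * (1 / q) = (N / q : ℕ) + (N % q : ℕ) / q := by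
      conv_lhs => rw [h1]
      field_simp
    have h5 : ((N % q : ℕ) : ℝ) / q ≤ 1 := (div_le_one hq').2 h2.le
    have h6 : 0 ≤ ((N % q : ℕ) : ℝ) / q := by positivity
    rw [h4, abs_le]
    split_ifs <;> push_cast <;> constructor <;> linarith
  | add _ _ h1 h2 =>
    rw [mean_add, sum_add_distrib]
    rw [abs_le] at *
    constructor <;> linarith [h1.1, h1.2, h2.1, h2.2]
  | smul c _ h =>
    rw [mean_smul, ← mul_sum, mul_left_comm, ← mul_sub, abs_mul]
    exact mul_le_mul_of_nonneg_left h (abs_nonneg c)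
  | mono _ h1 h2 => exact h2.trans h1

theorem mean_crt {p : ℕ} (hp : 0 < p) (hQ : 0 < Q) (h : Nat.Coprime p Q) (F : ℕ → ℕ → ℝ) :
    mean (p * Q) (fun t => F (t % p) (t % Q)) = mean p fun a => mean Q (F a) := by
  have : ∑ t ∈ range (p * Q), F (t % p) (t % Q) = ∑ x ∈ range p ×ˢ range Q, F x.1 x.2 := by
    refine sum_bij (fun t _ => (t % p, t % Q)) (fun t _ => ?_) (fun t ht s hs e => ?_)
      (fun x hx => ?_) fun _ _ => rfl
    · simp [Nat.mod_lt _ hp, Nat.mod_lt _ hQ]
    · simp only [Prod.mk.injEq] at e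
      exact Nat.ModEq.eq_of_lt_of_lt ((Nat.modEq_and_modEq_iff_modEq_mul h).1 e)
        (mem_range.1 ht) (mem_range.1 hs)
    · obtain ⟨h1, h2⟩ := mem_product.1 hx
      refine ⟨Nat.chineseRemainder h x.1 x.2,
        mem_range.2 (Nat.chineseRemainder_lt_mul h _ _ hp.ne' hQ.ne'), ?_⟩
      have h3 := (Nat.chineseRemainder h x.1 x.2).2
      rw [Prod.ext_iff]
      exact ⟨Eq.trans h3.1 (Nat.mod_eq_of_lt (mem_range.1 h1)),
        Eq.trans h3.2 (Nat.mod_eq_of_lt (mem_range.1 h2))⟩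
  simp only [mean]
  rw [this, sum_product, ← sum_div, div_div]
  push_cast
  rw [mul_comm]

/-- Indicator of divisibility. -/
noncomputable def dv (p m : ℕ) : ℝ := if p ∣ m then 1 else 0

theorem dv_eq {p : ℕ} (hp : 0 < p) (k t : ℕ) : dv p (t + k) = ind ((p - 1) * k) p t := by
  have : p ∣ t + k ↔ t ≡ (p - 1) * k [MOD p] := by
    obtain ⟨p, rfl⟩ : ∃ n, p = n + 1 := ⟨p - 1, by omega⟩
    rw [← Nat.modEq_zero_iff_dvd, Nat.add_sub_cancel]
    have h : p * k + k ≡ 0 [MOD (p + 1)] := by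
      rw [Nat.modEq_zero_iff_dvd]
      exact ⟨k, by ring⟩
    exact ⟨fun h1 => Nat.ModEq.add_right_cancel' k (h1.trans h.symm),
      fun h1 => (h1.add_right k).trans h⟩
  simp only [dv, ind, this]

theorem one_prime {p : ℕ} (hp : 0 < p) (u v : ℕ → ℝ) (hu : ∀ k, 0 ≤ u k) (hv : ∀ k, 0 ≤ v k)
    (h : (∀ k, u k ≤ v k) ∨ ∀ k, v k ≤ u k) (K : ℕ) (hK : K ≤ p) :
    mean p (fun a => ∏ k ∈ range K, if p ∣ a + k then v k else u k) ≤
      ∏ k ∈ range K, (1 / p * v k + (1 - 1 / p) * u k) := by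
  have hp' : (0 : ℝ) < p := by exact_mod_cast hp
  have hx : (1 : ℝ) / p ≤ 1 := (div_le_one hp').2 (by exact_mod_cast hp)
  have hx0 : (0 : ℝ) ≤ 1 / p := by positivity
  induction K with
  | zero => simp [mean, hp.ne']
  | succ K ih =>
    specialize ih (by omega)
    set G : ℕ → ℝ := fun a => ∏ k ∈ range K, if p ∣ a + k then v k else u k with hG
    set U := ∏ k ∈ range K, u k with hU
    have e : ∀ a, (∏ k ∈ range (K + 1), if p ∣ a + k then v k else u k) =
        u K * G a + ((v K - u K) * U) * dv p (a + K) := fun a => by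
      rw [prod_range_succ, dv]
      split_ifs with h1
      · have : G a = U := prod_congr rfl fun k hk => if_neg fun h2 => by
          have h3 := mem_range.1 hk
          have := Nat.le_of_dvd (by omega) (Nat.dvd_sub h1 h2)
          omega
        change G a * _ = _
        rw [this]
        ring
      · change G a * _ = _
        ring
    have e2 : mean p (fun a => dv p (a + K)) = 1 / p := by
      simp only [dv_eq hp]
      exact mean_ind hp _ _ dvd_rfl
    have e3 : mean p (fun _ => U) = U := by simp [mean, hp.ne']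
    have e4 : (v K - u K) * U ≤ (v K - u K) * mean p G := by
      rcases h with h | h
      · refine mul_le_mul_of_nonneg_left ?_ (sub_nonneg.2 (h K))
        rw [← e3]
        refine mean_mono fun a => prod_le_prod (fun k _ => hu k) fun k _ => ?_
        split_ifs
        exacts [h k, le_rfl]
      · refine mul_le_mul_of_nonpos_left ?_ (sub_nonpos.2 (h K))
        rw [← e3]
        refine mean_mono fun a => prod_le_prod (fun k _ => ?_) fun k _ => ?_
        · split_ifs
          exacts [hv k, hu k]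
        · split_ifs
          exacts [h k, le_rfl]
    simp only [e]
    rw [mean_add, mean_smul, mean_smul, e2, prod_range_succ]
    have h5 : 0 ≤ 1 / (p : ℝ) * v K + (1 - 1 / p) * u K :=
      add_nonneg (mul_nonneg hx0 (hv K)) (mul_nonneg (sub_nonneg.2 hx) (hu K))
    refine le_trans ?_ (mul_le_mul_of_nonneg_right ih h5)
    nlinarith [mul_le_mul_of_nonneg_left e4 hx0]

/-- Expectation of `f` of a sum of independent indicators with probabilities `1/p`. -/
noncomputable def B : List ℕ → (ℕ → ℝ) → ℝ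
  | [], f => f 0
  | p :: l, f => 1 / p * B l (fun m => f (m + 1)) + (1 - 1 / p) * B l f

theorem inv_le_one' (p : ℕ) : (1 : ℝ) / p ≤ 1 := by
  rcases Nat.eq_zero_or_pos p with rfl | hp
  · simp
  · exact (div_le_one (by exact_mod_cast hp)).2 (by exact_mod_cast hp)

theorem B_mono (l : List ℕ) {f g : ℕ → ℝ} (h : ∀ m, f m ≤ g m) : B l f ≤ B l g := by
  induction l generalizing f g with
  | nil => exact h 0
  | cons p l ih =>
    exact add_le_add (mul_le_mul_of_nonneg_left (ih fun m => h _) (by positivity))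
      (mul_le_mul_of_nonneg_left (ih h) (sub_nonneg.2 (inv_le_one' p)))

theorem B_lin (l : List ℕ) (a b c : ℝ) (f g : ℕ → ℝ) :
    B l (fun m => a + b * f m + c * g m) = a + b * B l f + c * B l g := by
  induction l generalizing f g with
  | nil => rfl
  | cons p l ih =>
    simp only [B]
    rw [ih f g, ih (fun m => f (m + 1)) fun m => g (m + 1)]
    ring

theorem B_const (l : List ℕ) (a : ℝ) : B l (fun _ => a) = a := by
  simpa using B_lin l a 0 0 (fun _ => 0) fun _ => 0

theorem B_nonneg (l : List ℕ) {f : ℕ → ℝ} (h : ∀ m, 0 ≤ f m) : 0 ≤ B l f :=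
  (B_const l 0).ge.trans (B_mono l h)

theorem B_smul (l : List ℕ) (b : ℝ) (f : ℕ → ℝ) : B l (fun m => b * f m) = b * B l f := by
  simpa using B_lin l 0 b 0 f f

/-- Sum of reciprocals. -/
noncomputable def rs (l : List ℕ) : ℝ := (l.map fun p : ℕ => (1 : ℝ) / p).sum

theorem rs_cons (p : ℕ) (l : List ℕ) : rs (p :: l) = 1 / p + rs l := by simp [rs]

theorem B_pow (l : List ℕ) {y : ℝ} (hy : 1 ≤ y) :
    B l (fun m => y ^ m) ≤ Real.exp ((y - 1) * rs l) := by
  induction l with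
  | nil => simp [B, rs]
  | cons p l ih =>
    have e : B l (fun m => y ^ (m + 1)) = y * B l (fun m => y ^ m) := by
      rw [← B_smul]
      simp only [pow_succ']
    rw [B, e, rs_cons, mul_add, Real.exp_add]
    have h1 := Real.add_one_le_exp ((y - 1) * (1 / p))
    have h2 : 0 ≤ B l (fun m => y ^ m) := B_nonneg l fun m => by positivity
    have h3 : 0 ≤ (y - 1) * (1 / p) + 1 := by
      have : 0 ≤ y - 1 := by linarith
      positivity
    calc _ = ((y - 1) * (1 / p) + 1) * B l (fun m => y ^ m) := by ring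
      _ ≤ _ := mul_le_mul h1 ih h2 (Real.exp_pos _).le

/-- Number of members of `l` dividing `m`. -/
def w (l : List ℕ) (m : ℕ) : ℕ := l.countP (· ∣ m)

theorem w_cons (p : ℕ) (l : List ℕ) (m : ℕ) :
    w (p :: l) m = w l m + if p ∣ m then 1 else 0 := by
  simp [w, List.countP_cons]

theorem w_mod (l : List ℕ) (h : ∀ p ∈ l, p ∣ Q) (t k : ℕ) : w l (t % Q + k) = w l (t + k) := by
  refine List.countP_congr fun p hp => ?_
  simp only [decide_eq_true_eq]
  exact Nat.ModEq.dvd_iff (((Nat.mod_modEq t Q).of_dvd (h p hp)).add_right k) dvd_rfl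

/-- Negative association. -/
theorem na (K : ℕ) (l : List ℕ) (hl : l.Nodup) (hp : ∀ p ∈ l, p.Prime ∧ K ≤ p) (f : ℕ → ℕ → ℝ)
    (h0 : ∀ k m, 0 ≤ f k m) (hm : (∀ k, Monotone (f k)) ∨ ∀ k, Antitone (f k)) :
    mean l.prod (fun t => ∏ k ∈ range K, f k (w l (t + k))) ≤ ∏ k ∈ range K, B l (f k) := by
  induction l generalizing f with
  | nil => simp [mean, w, B]
  | cons p l ih =>
    obtain ⟨h1, h2⟩ := List.nodup_cons.1 hl
    have hp1 := hp p List.mem_cons_self
    have hp2 : ∀ q ∈ l, q.Prime ∧ K ≤ q := fun q hq => hp q (List.mem_cons_of_mem _ hq)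
    have hQ : 0 < l.prod := List.prod_pos fun q hq => (hp2 q hq).1.pos
    have hc : Nat.Coprime p l.prod := Nat.coprime_list_prod_right_iff.2 fun q hq =>
      (Nat.coprime_primes hp1.1 (hp2 q hq).1).2 fun e => h1 (e ▸ hq)
    have e := mean_crt hp1.1.pos hQ hc fun a t =>
      ∏ k ∈ range K, f k (w l (t + k) + if p ∣ a + k then 1 else 0)
    have e1 : ∀ t k, p ∣ t % p + k ↔ p ∣ t + k := fun t k =>
      Nat.ModEq.dvd_iff ((Nat.mod_modEq t p).add_right k) dvd_rfl
    simp only [w_mod l fun q hq => List.dvd_prod hq, e1] at e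
    simp only [List.prod_cons, w_cons, B]
    rw [e]
    refine le_trans (mean_mono fun a => ?_) (one_prime hp1.1.pos (fun k => B l (f k))
      (fun k => B l fun m => f k (m + 1)) (fun k => B_nonneg l (h0 k))
      (fun k => B_nonneg l fun m => h0 k _) ?_ K hp1.2)
    · refine (ih h2 hp2 (fun k m => f k (m + if p ∣ a + k then 1 else 0)) (fun k m => h0 _ _)
        ?_).trans (le_of_eq (prod_congr rfl fun k _ => ?_))
      · exact hm.imp (fun h k m n hmn => h k (Nat.add_le_add_right hmn _))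
          fun h k m n hmn => h k (Nat.add_le_add_right hmn _)
      · split_ifs <;> rfl
    · exact hm.imp (fun h k => B_mono l fun m => h k (Nat.le_succ m))
        fun h k => B_mono l fun m => h k (Nat.le_succ m)

/-- Point masses. -/
noncomputable def pt (j m : ℕ) : ℝ := if m = j then 1 else 0

theorem pt_nonneg (j m : ℕ) : 0 ≤ pt j m := by
  unfold pt
  split_ifs <;> norm_num

theorem B_pt_zero (p : ℕ) (l : List ℕ) : B (p :: l) (pt 0) = (1 - 1 / p) * B l (pt 0) := by
  have : (fun m => pt 0 (m + 1)) = fun _ => 0 := funext fun m => by simp [pt]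
  rw [B, this, B_const]
  ring

theorem B_pt_succ (p : ℕ) (l : List ℕ) (j : ℕ) :
    B (p :: l) (pt (j + 1)) = 1 / p * B l (pt j) + (1 - 1 / p) * B l (pt (j + 1)) := by
  have : (fun m => pt (j + 1) (m + 1)) = pt j := funext fun m => by simp [pt]
  rw [B, this]

theorem B_ratio (l : List ℕ) {μ : ℝ} (h0 : 0 ≤ μ) (hμ : ∀ p ∈ l, (1 : ℝ) / p ≤ μ) (j : ℕ) :
    (rs l - j * μ) * B l (pt j) ≤ (j + 1) * B l (pt (j + 1)) := by
  induction l generalizing j with
  | nil =>
    have := pt_nonneg j 0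
    have h : (0 : ℝ) ≤ j * μ := by positivity
    simp only [rs, B, pt, List.map_nil, List.sum_nil] at *
    simp only [zero_sub, Nat.zero_ne_add_one, if_false, mul_zero]
    nlinarith
  | cons p l ih =>
    have ih' := ih fun q hq => hμ q (List.mem_cons_of_mem _ hq)
    have h1 := hμ p List.mem_cons_self
    have h2 := sub_nonneg.2 (inv_le_one' p)
    have h3 : (0 : ℝ) ≤ 1 / p := by positivity
    have hn : ∀ j, 0 ≤ B l (pt j) := fun j => B_nonneg l (pt_nonneg j)
    rw [rs_cons]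
    rcases j with _ | j
    · rw [B_pt_zero, B_pt_succ]
      have a1 := mul_le_mul_of_nonneg_left (ih' 0) h2
      have a2 := mul_nonneg (mul_nonneg h3 h3) (hn 0)
      generalize (1 : ℝ) / p = x at *
      push_cast at *
      nlinarith
    · rw [B_pt_succ, B_pt_succ]
      have a1 := mul_le_mul_of_nonneg_left (ih' (j + 1)) h2
      have a2 := mul_nonneg (mul_nonneg h3 h3) (hn (j + 1))
      have a3 := mul_le_mul_of_nonneg_left (ih' j) h3
      have a4 := mul_nonneg (mul_nonneg h3 (sub_nonneg.2 h1)) (hn j)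
      generalize (1 : ℝ) / p = x at *
      push_cast at *
      nlinarith

theorem B_pt_ge (l : List ℕ) {μ σ : ℝ} (h0 : 0 ≤ μ) (hμ : ∀ p ∈ l, (1 : ℝ) / p ≤ μ) (r : ℕ)
    (hσ : 0 ≤ σ) (h : σ ≤ rs l - r * μ) (j : ℕ) (hj : j ≤ r) :
    B l (pt 0) * σ ^ j ≤ j.factorial * B l (pt j) := by
  induction j with
  | zero => simp
  | succ j ih =>
    have h1 := ih (by omega)
    have h2 := B_ratio l h0 hμ j
    have h3 : (j : ℝ) * μ ≤ r * μ :=
      mul_le_mul_of_nonneg_right (by exact_mod_cast (by omega : j ≤ r)) h0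
    have h4 := B_nonneg l (pt_nonneg j)
    have h5 : σ * B l (pt j) ≤ (j + 1) * B l (pt (j + 1)) :=
      (mul_le_mul_of_nonneg_right (by linarith) h4).trans h2
    rw [Nat.factorial_succ, pow_succ]
    push_cast
    have h6 : (0 : ℝ) ≤ j.factorial := Nat.cast_nonneg _
    nlinarith [mul_le_mul_of_nonneg_left h5 h6, mul_le_mul_of_nonneg_right h1 hσ]

theorem B_zero_ge (l : List ℕ) {μ : ℝ} (h0 : μ ≤ 1 / 2) (hμ : ∀ p ∈ l, (1 : ℝ) / p ≤ μ) :
    Real.exp (-((1 + 2 * μ) * rs l)) ≤ B l (pt 0) := by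
  induction l with
  | nil => simp [B, rs, pt]
  | cons p l ih =>
    have ih' := ih fun q hq => hμ q (List.mem_cons_of_mem _ hq)
    have h1 := hμ p List.mem_cons_self
    have h3 : (0 : ℝ) ≤ 1 / p := by positivity
    rw [B_pt_zero, rs_cons, mul_add, neg_add, Real.exp_add]
    refine mul_le_mul ?_ ih' (Real.exp_pos _).le (by linarith)
    generalize (1 : ℝ) / p = x at *
    rw [Real.exp_neg, inv_le_iff_one_le_mul₀ (Real.exp_pos _)]
    have h4 := Real.add_one_le_exp ((1 + 2 * μ) * x)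
    have h5 : 0 ≤ 1 - x := by linarith
    have h6 : 1 ≤ (1 - x) * ((1 + 2 * μ) * x + 1) := by
      have : 0 ≤ x * (2 * μ * (1 - x) - x) := mul_nonneg h3 (by nlinarith)
      nlinarith
    nlinarith [mul_le_mul_of_nonneg_left h4 h5]

end Pool.Agent.Lib.MP_24d810_nt
end

-- part Pool.Agent.Lib.MP_24d810_nt.Sieve
section

/-! A Selberg type square built from a truncated product of interpolation polynomials. -/

set_option autoImplicit false

open Finset

namespace Pool.Agent.Lib.MP_24d810_nt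

variable {Q : ℕ}

/-- Indicator of `r ≤ m`. -/
noncomputable def up (r m : ℕ) : ℝ := if r ≤ m then 1 else 0

/-- Newton interpolation polynomial of degree `R` of the indicator of `r ≤ m`. -/
noncomputable def nw (r R m : ℕ) : ℝ :=
  ∑ i ∈ range (R + 1), (fwdDiff 1)^[i] (up r) 0 * (m.choose i : ℝ)

theorem coef_le (r i : ℕ) : |(fwdDiff 1)^[i] (up r) 0| ≤ 2 ^ i := by
  rw [fwdDiff_iter_eq_sum_shift]
  refine (abs_sum_le_sum_abs _ _).trans ?_
  have : (2 : ℝ) ^ i = ∑ k ∈ range (i + 1), (i.choose k : ℝ) := by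
    exact_mod_cast (Nat.sum_range_choose i).symm
  rw [this]
  refine sum_le_sum fun k _ => ?_
  rw [zsmul_eq_mul, abs_mul]
  have h1 : |up r (0 + k • 1)| ≤ 1 := by
    unfold up
    split_ifs <;> simp
  have h2 : |((((-1 : ℤ) ^ (i - k) * i.choose k : ℤ)) : ℝ)| = i.choose k := by
    push_cast
    rw [abs_mul, abs_pow, abs_neg, abs_one, one_pow, one_mul, Nat.abs_cast]
  rw [h2]
  exact mul_le_of_le_one_right (Nat.cast_nonneg _) h1

theorem nw_eq (r : ℕ) {R m : ℕ} (h : m ≤ R) : nw r R m = up r m := by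
  have := shift_eq_sum_fwdDiff_iter 1 (up r) m 0
  simp only [smul_eq_mul, mul_one, zero_add, nsmul_eq_mul] at this
  rw [this, nw]
  symm
  simp only [mul_comm ((m.choose _ : ℕ) : ℝ)]
  refine sum_subset (range_subset_range.2 (by omega)) fun i _ hi => ?_
  rw [Nat.choose_eq_zero_of_lt (by simpa using hi)]
  simp

theorem nw_abs (r R m : ℕ) : |nw r R m| ≤ 3 ^ m := by
  refine (abs_sum_le_sum_abs _ _).trans ?_
  have h1 : (3 : ℝ) ^ m = ∑ i ∈ range (m + 1), 2 ^ i * (m.choose i : ℝ) := by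
    have := add_pow (2 : ℝ) 1 m
    simp only [one_pow, mul_one] at this
    rw [← this]
    norm_num
  have h2 : ∑ i ∈ range (m + 1), 2 ^ i * (m.choose i : ℝ) =
      ∑ i ∈ range (m + 1 + (R + 1)), 2 ^ i * (m.choose i : ℝ) :=
    sum_subset (range_subset_range.2 (by omega)) fun i _ hi => by
      rw [Nat.choose_eq_zero_of_lt (by simpa using hi)]
      simp
  rw [h1, h2]
  refine le_trans (sum_le_sum fun i _ => ?_) (sum_le_sum_of_subset_of_nonneg
    (range_subset_range.2 (by omega)) fun _ _ _ => by positivity)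
  rw [abs_mul, Nat.abs_cast]
  exact mul_le_mul_of_nonneg_right (coef_le r i) (Nat.cast_nonneg _)

theorem cl_choose (l : List ℕ) (h : ∀ p ∈ l, 0 < p ∧ p ∣ Q) (k i : ℕ) :
    Cl Q (l.length.choose i) (fun t => ((w l (t + k)).choose i : ℝ)) := by
  induction l generalizing i with
  | nil =>
    rcases i with _ | i
    · simpa [w] using cl_one
    · simpa [w] using cl_zero
  | cons p l ih =>
    have ih' := ih fun q hq => h q (List.mem_cons_of_mem _ hq)
    have hp := h p List.mem_cons_self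
    rcases i with _ | i
    · simpa using cl_one
    · refine ((((Cl.ind ((p - 1) * k) p hp.2).mul (ih' i)).add (ih' (i + 1))).mono
        (le_of_eq ?_)).congr fun t => ?_
      · rw [List.length_cons, Nat.choose_succ_succ']
        push_cast
        ring
      · rw [← dv_eq hp.1, w_cons, dv]
        split_ifs
        · rw [Nat.choose_succ_succ']
          push_cast
          ring
        · simp

theorem cl_nw (l : List ℕ) (h : ∀ p ∈ l, 0 < p ∧ p ∣ Q) (r R k : ℕ) :
    Cl Q ((1 + 2 * l.length) ^ R) (fun t => nw r R (w l (t + k))) := by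
  refine (cl_sum (range (R + 1)) _ _ fun i _ => (cl_choose l h k i).smul _).mono ?_
  rw [add_comm (1 : ℝ), add_pow]
  refine sum_le_sum fun i hi => ?_
  have h1 : (l.length.choose i : ℝ) ≤ l.length ^ i := by exact_mod_cast Nat.choose_le_pow _ _
  have h2 : (1 : ℝ) ≤ R.choose i := by
    exact_mod_cast Nat.choose_pos (Nat.lt_succ_iff.1 (mem_range.1 hi))
  rw [one_pow, mul_one, mul_pow]
  exact (mul_le_mul (coef_le r i) h1 (Nat.cast_nonneg _) (by positivity)).trans
    (le_mul_of_one_le_right (by positivity) h2)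

/-- The product of `1 - g k` over `k < K`, truncated to terms of degree below `T`. -/
noncomputable def FT (g : ℕ → ℝ) : ℕ → ℕ → ℝ
  | _, 0 => 0
  | 0, _ + 1 => 1
  | K + 1, T + 1 => FT g K (T + 1) - g K * FT g K T

theorem FT_one (g : ℕ → ℝ) (K T : ℕ) (h : ∀ k < K, g k = 0) : FT g K (T + 1) = 1 := by
  induction K with
  | zero => rfl
  | succ K ih => rw [FT, ih fun k hk => h k (by omega), h K (by omega)]; simp

theorem FT_diff (g : ℕ → ℝ) (K T : ℕ) :
    |∏ k ∈ range K, (1 - g k) - FT g K T| ≤ (1 / 2) ^ T * ∏ k ∈ range K, (1 + 2 * |g k|) := by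
  induction K generalizing T with
  | zero => rcases T with _ | T <;> simp [FT]
  | succ K ih =>
    rcases T with _ | T
    · simp only [FT, sub_zero, pow_zero, one_mul, abs_prod]
      refine prod_le_prod (fun _ _ => abs_nonneg _) fun k _ => ?_
      have := abs_sub 1 (g k)
      rw [abs_one] at this
      linarith [abs_nonneg (g k)]
    · have h1 := ih (T + 1)
      have h2 := mul_le_mul_of_nonneg_left (ih T) (abs_nonneg (g K))
      rw [← abs_mul] at h2
      rw [FT, prod_range_succ, prod_range_succ]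
      set P := ∏ k ∈ range K, (1 - g k)
      have := abs_sub (P - FT g K (T + 1)) (g K * (P - FT g K T))
      rw [show P * (1 - g K) - (FT g K (T + 1) - g K * FT g K T) =
        P - FT g K (T + 1) - g K * (P - FT g K T) by ring]
      rw [pow_succ] at *
      linarith

theorem cl_FT {Z : ℝ} (G : ℕ → ℕ → ℝ) (h : ∀ k, Cl Q Z (G k)) (K T : ℕ) :
    Cl Q ((1 + K * Z) ^ T) (fun t => FT (fun k => G k t) K T) := by
  have hZ := (h 0).nonneg
  induction K generalizing T with
  | zero =>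
    rcases T with _ | T
    · exact (cl_zero.mono (by simp)).congr fun t => by simp [FT]
    · exact (cl_one.mono (by simp)).congr fun t => by simp [FT]
  | succ K ih =>
    rcases T with _ | T
    · exact (cl_zero.mono (by simp)).congr fun t => by simp [FT]
    · refine (((ih (T + 1)).add (((h K).mul (ih T)).smul (-1))).mono ?_).congr fun t => ?_
      · have h1 : (1 + K * Z) ^ T ≤ (1 + (K + 1 : ℕ) * Z) ^ T :=
          pow_le_pow_left₀ (by positivity) (by push_cast; nlinarith) T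
        rw [pow_succ, pow_succ, abs_neg, abs_one, one_mul]
        refine le_trans (le_of_eq ?_) (mul_le_mul_of_nonneg_right h1 (by positivity))
        push_cast
        ring
      · rw [FT]
        ring

/-- The tail weight. -/
noncomputable def tl (R m : ℕ) : ℝ := if R < m then 81 ^ m else 0

theorem up_mono (r : ℕ) : Monotone (up r) := fun m n h => by
  unfold up
  split_ifs <;> first | omega | norm_num

theorem tl_mono (R : ℕ) : Monotone (tl R) := fun m n h => by
  unfold tl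
  split_ifs
  · exact pow_le_pow_right₀ (by norm_num) h
  · omega
  · positivity
  · rfl

theorem up_nonneg (r m : ℕ) : 0 ≤ up r m := by
  unfold up
  split_ifs <;> norm_num

theorem up_le (r m : ℕ) : up r m ≤ 1 := by
  unfold up
  split_ifs <;> norm_num

theorem tl_nonneg (R m : ℕ) : 0 ≤ tl R m := by
  unfold tl
  split_ifs <;> positivity

theorem pw_one {r R : ℕ} (h : r ≤ R) (m : ℕ) :
    (1 - nw r R m) ^ 4 ≤ (1 - 3 / 4 * up r m) * (1 + 64 * tl R m) := by
  rcases le_or_gt m R with h1 | h1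
  · rw [nw_eq r h1, tl, if_neg (by omega), up]
    split_ifs <;> norm_num
  · rw [tl, if_pos h1, up, if_pos (by omega)]
    have h2 := nw_abs r R m
    have h3 : (1 : ℝ) ≤ 3 ^ m := one_le_pow₀ (by norm_num)
    have h4 : |1 - nw r R m| ≤ 2 * 3 ^ m := by
      have := abs_sub 1 (nw r R m)
      rw [abs_one] at this
      linarith
    have h5 := pow_le_pow_left₀ (abs_nonneg _) h4 4
    have h6 : ((3 : ℝ) ^ m) ^ 4 = 81 ^ m := by
      rw [← pow_mul, mul_comm, pow_mul]
      norm_num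
    rw [← abs_pow, mul_pow, h6] at h5
    linarith [le_abs_self ((1 - nw r R m) ^ 4)]

theorem pw_two (r R m : ℕ) :
    (1 + 2 * |nw r R m|) ^ 2 ≤ 1 + 8 * up r m + 9 * tl R m := by
  rcases le_or_gt m R with h1 | h1
  · rw [nw_eq r h1, tl, if_neg (by omega), up]
    split_ifs <;> norm_num
  · rw [tl, if_pos h1]
    have h2 := nw_abs r R m
    have h3 : (1 : ℝ) ≤ 3 ^ m := one_le_pow₀ (by norm_num)
    have h5 : (1 + 2 * |nw r R m|) ^ 2 ≤ (3 * 3 ^ m) ^ 2 :=
      pow_le_pow_left₀ (by positivity) (by linarith) 2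
    have h6 : ((3 : ℝ) ^ m) ^ 2 ≤ 81 ^ m := by
      rw [← pow_mul, mul_comm, pow_mul]
      exact pow_le_pow_left₀ (by norm_num) (by norm_num) m
    rw [mul_pow] at h5
    linarith [up_nonneg r m]

theorem pow_le_exp {x : ℝ} (h : 0 ≤ 1 + x) (K : ℕ) :
    ∏ _k ∈ range K, (1 + x) ≤ Real.exp (K * x) := by
  rw [prod_const, card_range, Real.exp_nat_mul]
  exact pow_le_pow_left₀ h (by linarith [Real.add_one_le_exp x]) K

theorem core (K : ℕ) (l : List ℕ) (hl : l.Nodup) (hp : ∀ p ∈ l, p.Prime ∧ K ≤ p) {r R : ℕ}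
    (hR : r ≤ R) (hη : 64 * (K * B l (tl R)) ≤ 1) (T N : ℕ) :
    (#{t ∈ range N | ∀ k < K, w l (t + k) < r} : ℝ) ≤
      N * (4 * Real.exp (-(3 / 8 * (K * B l (up r)))) +
        6 * Real.exp (8 * (K * B l (up r))) * (1 / 4) ^ (T + 1)) +
      (1 + K * (1 + 2 * l.length) ^ R) ^ (2 * (T + 1)) := by
  have hQ : 0 < l.prod := List.prod_pos fun q hq => (hp q hq).1.pos
  set F : ℕ → ℝ := fun t => FT (fun k => nw r R (w l (t + k))) K (T + 1) with hF
  have hc : Cl l.prod ((1 + K * (1 + 2 * l.length) ^ R) ^ (T + 1)) F :=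
    cl_FT (fun k t => nw r R (w l (t + k)))
      (fun k => cl_nw l (fun p h => ⟨(hp p h).1.pos, List.dvd_prod h⟩) r R k) K (T + 1)
  have h1 := (abs_le.1 ((hc.mul hc).disc hQ N)).2
  rw [← pow_add, ← two_mul] at h1
  have h2 : (#{t ∈ range N | ∀ k < K, w l (t + k) < r} : ℝ) ≤ ∑ t ∈ range N, F t * F t := by
    rw [card_eq_sum_ones, Nat.cast_sum]
    refine le_trans (le_of_eq (sum_congr rfl fun t ht => ?_))
      (sum_le_sum_of_subset_of_nonneg (filter_subset _ _) fun t _ _ => mul_self_nonneg _)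
    have : F t = 1 := FT_one _ _ _ fun k hk => by
      have := (mem_filter.1 ht).2 k hk
      rw [nw_eq r (by omega), up, if_neg (by omega)]
    simp [this]
  set q := B l (up r) with hq
  set η := B l (tl R) with hη'
  have q0 : 0 ≤ q := B_nonneg l (up_nonneg r)
  have q1 : q ≤ 1 := (B_mono l (up_le r)).trans (B_const l 1).le
  have η0 : 0 ≤ η := B_nonneg l (tl_nonneg R)
  have Kη : 0 ≤ K * η := by positivity
  have e3 : Real.exp 1 ≤ 3 := by linarith [Real.exp_one_lt_d9]
  have a0 : ∀ m, 0 ≤ 1 + -(3 / 4) * up r m + 0 * tl R m := fun m => by linarith [up_le r m]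
  have b0 : ∀ m, 0 ≤ 1 + 0 * up r m + 64 * tl R m := fun m => by linarith [tl_nonneg R m]
  have c0 : ∀ m, 0 ≤ 1 + 8 * up r m + 9 * tl R m := fun m => by
    linarith [tl_nonneg R m, up_nonneg r m]
  have nA := na K l hl hp (fun _ m => 1 + -(3 / 4) * up r m + 0 * tl R m) (fun _ => a0)
    (Or.inr fun _ m n h => by have := up_mono r h; linarith)
  have nB := na K l hl hp (fun _ m => 1 + 0 * up r m + 64 * tl R m) (fun _ => b0)
    (Or.inl fun _ m n h => by have := tl_mono R h; linarith)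
  have nC := na K l hl hp (fun _ m => 1 + 8 * up r m + 9 * tl R m) (fun _ => c0)
    (Or.inl fun _ m n h => by have := tl_mono R h; have := up_mono r h; linarith)
  simp only [B_lin, ← hq, ← hη'] at nA nB nC
  simp only [add_assoc] at nA nB nC
  replace nA := nA.trans (pow_le_exp (by linarith) K)
  replace nB := (nB.trans (pow_le_exp (by linarith) K)).trans
    ((Real.exp_le_exp.2 (by linarith)).trans e3)
  replace nC := nC.trans (pow_le_exp (by linarith) K)
  simp only [← add_assoc] at nA nB nC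
  set A : ℕ → ℝ := fun t => ∏ k ∈ range K,
    (1 + -(3 / 4) * up r (w l (t + k)) + 0 * tl R (w l (t + k)))
  set D : ℕ → ℝ := fun t => ∏ k ∈ range K, (1 + 0 * up r (w l (t + k)) + 64 * tl R (w l (t + k)))
  set C : ℕ → ℝ := fun t => ∏ k ∈ range K, (1 + 8 * up r (w l (t + k)) + 9 * tl R (w l (t + k)))
  set E := Real.exp (-(3 / 8 * (K * q))) with hE
  have E0 : 0 < E := Real.exp_pos _
  have h3 : ∀ t, F t * F t ≤ (E⁻¹ * A t + E * D t) + 2 * (1 / 4) ^ (T + 1) * C t := fun t => by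
    have d1 := FT_diff (fun k => nw r R (w l (t + k))) K (T + 1)
    set P := ∏ k ∈ range K, (1 - nw r R (w l (t + k)))
    have d2 := pow_le_pow_left₀ (abs_nonneg _) d1 2
    rw [sq_abs, mul_pow, ← prod_pow, ← pow_mul, mul_comm (T + 1), pow_mul] at d2
    have d3 : ∏ k ∈ range K, (1 + 2 * |nw r R (w l (t + k))|) ^ 2 ≤ C t :=
      prod_le_prod (fun _ _ => by positivity) fun k _ => pw_two _ _ _
    have d4 : P ^ 4 ≤ A t * D t := by
      rw [← prod_pow, ← prod_mul_distrib]
      exact prod_le_prod (fun _ _ => by positivity) fun k _ =>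
        (pw_one hR _).trans (le_of_eq (by ring))
    have A0 : 0 ≤ A t := prod_nonneg fun _ _ => a0 _
    have D0 : 0 ≤ D t := prod_nonneg fun _ _ => b0 _
    have d5 : 2 * P ^ 2 ≤ E⁻¹ * A t + E * D t := by
      refine le_of_sq_le_sq ?_ |> fun h => h (by positivity)
      have : E⁻¹ * A t * (E * D t) = A t * D t := by field_simp
      nlinarith [sq_nonneg (E⁻¹ * A t - E * D t)]
    have d6 := mul_le_mul_of_nonneg_left d3 (by positivity : (0 : ℝ) ≤ ((1 / 2) ^ 2) ^ (T + 1))
    have d7 : ((1 / 2 : ℝ) ^ 2) = 1 / 4 := by norm_num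
    rw [d7] at d2 d6
    change (P - F t) ^ 2 ≤ _ at d2
    nlinarith [sq_nonneg (2 * P - F t)]
  have h4 := mean_mono (Q := l.prod) h3
  rw [mean_add, mean_add, mean_smul, mean_smul, mean_smul] at h4
  have h5 : Real.exp (K * (-(3 / 4) * q + 0 * η)) = E * E := by
    rw [hE, ← Real.exp_add]
    congr 1
    ring
  have h6 : Real.exp (K * (8 * q + 9 * η)) ≤ Real.exp (8 * (K * q)) * 3 := by
    refine le_trans ?_ (mul_le_mul_of_nonneg_left e3 (Real.exp_pos _).le)
    rw [← Real.exp_add]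
    exact Real.exp_le_exp.2 (by linarith)
  have h7 : E⁻¹ * mean l.prod A ≤ E := by
    rw [inv_mul_le_iff₀ E0, ← h5]
    exact nA
  have h8 := mul_le_mul_of_nonneg_left nB E0.le
  have h9 := mul_le_mul_of_nonneg_left (nC.trans h6)
    (by positivity : (0 : ℝ) ≤ 2 * (1 / 4) ^ (T + 1))
  have h10 : mean l.prod (fun t => F t * F t) ≤
      4 * E + 6 * Real.exp (8 * (K * q)) * (1 / 4) ^ (T + 1) := by linarith
  linarith [mul_le_mul_of_nonneg_left h10 (Nat.cast_nonneg N : (0 : ℝ) ≤ N)]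

end Pool.Agent.Lib.MP_24d810_nt
end

-- part Pool.Agent.Lib.MP_24d810_nt.Main
section

/-! Choice of the parameters. -/

set_option autoImplicit false

open Finset Real

namespace Pool.Agent.Lib.MP_24d810_nt

theorem harm_le (z : ℕ) :
    (harmonic z : ℝ) ≤ ∏ p ∈ (z + 1).primesBelow, (1 - (p : ℝ)⁻¹)⁻¹ := by
  let f : ℕ →* ℝ := ⟨⟨fun n => (n : ℝ)⁻¹, by simp⟩, fun a b => by simp [mul_comm]⟩
  have h1 : HasSum (fun m : (z + 1).smoothNumbers => ((m : ℕ) : ℝ)⁻¹)
      (∏ p ∈ (z + 1).primesBelow, (1 - (p : ℝ)⁻¹)⁻¹) :=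
    (EulerProduct.summable_and_hasSum_smoothNumbers_prod_primesBelow_geometric (f := f)
    (fun {p} hp => by
      have : (1 : ℝ) < p := by exact_mod_cast hp.one_lt
      change ‖(p : ℝ)⁻¹‖ < 1
      rw [norm_inv, Real.norm_natCast]
      exact inv_lt_one_of_one_lt₀ this) (z + 1)).2
  have h2 := (hasSum_subtype_iff_indicator (f := fun n : ℕ => (n : ℝ)⁻¹)
    (s := (z + 1).smoothNumbers)).1 h1
  refine le_trans (le_of_eq ?_) (sum_le_hasSum (Icc 1 z) (fun n _ => Set.indicator_nonneg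
    (fun n _ => by positivity) n) h2)
  rw [harmonic_eq_sum_Icc]
  push_cast
  refine sum_congr rfl fun n hn => ?_
  have := mem_Icc.1 hn
  rw [Set.indicator_of_mem (Nat.mem_smoothNumbers_of_lt (by omega) (by omega))]

theorem tele (n : ℕ) : ∑ p ∈ Ioc 0 n with p.Prime, (1 / ((p : ℝ) - 1) - 1 / p) ≤ 1 - 1 / n := by
  induction n with
  | zero => simp
  | succ n ih =>
    rw [sum_filter, sum_Ioc_succ_top (Nat.zero_le n), ← sum_filter]
    rcases Nat.eq_zero_or_pos n with rfl | hn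
    · simp [Nat.not_prime_one]
    · have : (0 : ℝ) < n := by exact_mod_cast hn
      have h : 1 / ((n : ℝ) + 1) ≤ 1 / n := one_div_le_one_div_of_le this (by linarith)
      push_cast
      split_ifs
      · rw [add_sub_cancel_right]
        linarith
      · linarith

theorem log_le_exp_sum (z : ℕ) :
    log (z + 1) ≤ exp (∑ p ∈ Ioc 0 z with p.Prime, 1 / (p : ℝ) + 1) := by
  have h5 := log_add_one_le_harmonic z
  push_cast at h5
  have h6 : (z + 1).primesBelow = (Ioc 0 z).filter Nat.Prime := by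
    ext p
    simp only [Nat.mem_primesBelow, mem_filter, mem_Ioc]
    exact ⟨fun h => ⟨⟨h.2.pos, by omega⟩, h.2⟩, fun h => ⟨by omega, h.2⟩⟩
  have h8 : (0 : ℝ) ≤ 1 / z := by positivity
  have h9 : ∑ p ∈ Ioc 0 z with p.Prime, 1 / ((p : ℝ) - 1) ≤
      ∑ p ∈ Ioc 0 z with p.Prime, 1 / (p : ℝ) + 1 := by
    have := tele z
    rw [sum_sub_distrib] at this
    linarith
  refine h5.trans ((harm_le z).trans (le_trans ?_ (exp_le_exp.2 h9)))
  rw [h6, exp_sum]
  have e : ∀ p ∈ (Ioc 0 z).filter Nat.Prime, (1 - (p : ℝ)⁻¹)⁻¹ = 1 / ((p : ℝ) - 1) + 1 ∧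
      (0 : ℝ) < p - 1 := fun p hp => by
    have : (2 : ℝ) ≤ p := by exact_mod_cast (mem_filter.1 hp).2.two_le
    have h : (p : ℝ) - 1 ≠ 0 := by linarith
    refine ⟨?_, by linarith⟩
    field_simp
    ring
  refine prod_le_prod (fun p hp => ?_) fun p hp => ?_
  · rw [(e p hp).1]
    have := (e p hp).2
    positivity
  · rw [(e p hp).1]
    exact add_one_le_exp _

theorem exists_sub (l : List ℕ) {μ σ : ℝ} (h0 : 0 ≤ μ) (hσ : 0 ≤ σ)
    (hμ : ∀ p ∈ l, (1 : ℝ) / p ≤ μ) (h : σ ≤ rs l) :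
    ∃ l' : List ℕ, l'.Sublist l ∧ σ ≤ rs l' ∧ rs l' ≤ σ + μ := by
  induction l with
  | nil => exact ⟨[], List.Sublist.refl _, h, by simpa [rs] using add_nonneg hσ h0⟩
  | cons p l ih =>
    by_cases h1 : σ ≤ rs l
    · obtain ⟨l', a, b⟩ := ih (fun q hq => hμ q (List.mem_cons_of_mem _ hq)) h1
      exact ⟨l', a.cons p, b⟩
    · refine ⟨p :: l, List.Sublist.refl _, h, ?_⟩
      rw [rs_cons]
      linarith [hμ p List.mem_cons_self]

theorem exists_primes (n : ℕ) (hn : 1 ≤ n) : ∃ l : List ℕ, l.Nodup ∧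
    (∀ p ∈ l, p.Prime ∧ 2 ^ n ≤ p) ∧ (n + 1 : ℝ) / 2 ≤ rs l ∧ rs l ≤ (n + 1) / 2 + 1 / 2 ^ n ∧
    (1 + 2 * l.length : ℝ) ≤ exp (exp 6 * (n + 1) * exp ((n + 1) / 2) + 2) := by
  set y := exp 6 * (n + 1) * exp ((n + 1) / 2) with hy
  have y0 : 0 < y := by positivity
  set z := ⌊exp y⌋₊ with hz
  set S := (Ioc 0 z).filter fun p => p.Prime ∧ 2 ^ n ≤ p with hS
  have h1 : y ≤ log (z + 1) := (le_log_iff_exp_le (by positivity)).2 (Nat.lt_floor_add_one _).le
  have h2 := (log_le_iff_le_exp y0).2 (h1.trans (log_le_exp_sum z))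
  rw [hy, log_mul (by positivity) (by positivity), log_mul (by positivity) (by positivity),
    log_exp, log_exp] at h2
  have h3 := MP_9c5702_nt.sum_inv_le (2 ^ n) (le_self_pow₀ (by norm_num) (by omega))
  have h4 : log (log ((2 ^ n : ℕ) : ℝ)) ≤ log (n + 1) := by
    have n1 : (1 : ℝ) ≤ n := by exact_mod_cast hn
    push_cast
    rw [log_pow]
    have := log_two_gt_d9
    have := log_two_lt_d9
    exact log_le_log (by positivity) (by nlinarith)
  have h5 : ∑ p ∈ Ioc 0 z with p.Prime, 1 / (p : ℝ) ≤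
      ∑ p ∈ S, 1 / (p : ℝ) + ∑ p ∈ Ioc 0 (2 ^ n : ℕ) with p.Prime, 1 / (p : ℝ) := by
    rw [← sum_union_inter]
    refine le_trans (sum_le_sum_of_subset_of_nonneg (fun p hp => ?_) fun _ _ _ => by positivity)
      (le_add_of_nonneg_right (sum_nonneg fun _ _ => by positivity))
    simp only [hS, mem_union, mem_filter, mem_Ioc] at hp ⊢
    rcases le_total (2 ^ n) p with h | h <;> tauto
  have h6 : rs S.toList = ∑ p ∈ S, 1 / (p : ℝ) := by rw [rs, sum_map_toList]
  obtain ⟨l, a, b, c⟩ := exists_sub S.toList (μ := 1 / 2 ^ n) (σ := (n + 1) / 2) (by positivity)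
    (by positivity) (fun p hp => one_div_le_one_div_of_le (by positivity)
      (by exact_mod_cast (mem_filter.1 (mem_toList.1 hp)).2.2)) (by linarith)
  refine ⟨l, a.nodup S.nodup_toList, fun p hp => (mem_filter.1 (mem_toList.1 (a.subset hp))).2,
    b, c, ?_⟩
  have h7 : l.length ≤ z := a.length_le.trans (by
    rw [length_toList]
    exact (card_filter_le _ _).trans (by simp))
  have h8 : (l.length : ℝ) ≤ exp y := (Nat.cast_le.2 h7).trans (Nat.floor_le (exp_pos y).le)
  have h9 := add_one_le_exp (2 : ℝ)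
  have h10 := one_le_exp y0.le
  rw [exp_add]
  nlinarith

theorem fact_le (n : ℕ) :
    ((n + 1).factorial : ℝ) ≤ exp 1 * √(n + 1) * ((n + 1) / exp 1) ^ (n + 1) := by
  have h := Stirling.stirlingSeq'_antitone (Nat.zero_le n)
  simp only [Function.comp, Nat.succ_eq_add_one, zero_add, Stirling.stirlingSeq_one] at h
  rw [Stirling.stirlingSeq, div_le_iff₀ (by positivity)] at h
  push_cast at h
  refine h.trans (le_of_eq ?_)
  rw [sqrt_mul (by norm_num)]
  field_simp

theorem q_ge (n : ℕ) (hn : 5 ≤ n) (l : List ℕ) (hp : ∀ p ∈ l, 2 ^ n ≤ p)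
    (h1 : (n + 1 : ℝ) / 2 ≤ rs l) (h2 : rs l ≤ (n + 1) / 2 + 1 / 2 ^ n) :
    exp ((n + 1) / 2) / √(n + 1) / 36 ≤ 2 ^ n * B l (up (n + 1)) := by
  set μ : ℝ := 1 / 2 ^ n with hμ
  have m0 : 0 < μ := by positivity
  have m1 : (n + 1) * μ ≤ 1 / 4 := by
    have : 4 * (n + 1) ≤ 2 ^ n := by
      clear h1 h2 hp hμ m0 μ
      induction n, hn using Nat.le_induction with
      | base => norm_num
      | succ n hn ih => rw [pow_succ]; omega
    have : (4 : ℝ) * (n + 1) ≤ 2 ^ n := by exact_mod_cast this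
    rw [hμ, mul_one_div, div_le_iff₀ (by positivity)]
    linarith
  have n0 : (0 : ℝ) ≤ n := Nat.cast_nonneg n
  have m2 : μ ≤ 1 / 4 := by nlinarith
  have hl : ∀ p ∈ l, (1 : ℝ) / p ≤ μ := fun p h =>
    one_div_le_one_div_of_le (by positivity) (by exact_mod_cast hp p h)
  have a1 := B_pt_ge l m0.le hl (n + 1) (σ := (n + 1) / 2 * (1 + -2 * μ))
    (mul_nonneg (by positivity) (by linarith)) (by push_cast; linarith) (n + 1) le_rfl
  have a2 : exp (-((n + 1) / 2 + 1)) ≤ B l (pt 0) :=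
    (exp_le_exp.2 (by nlinarith)).trans (B_zero_ge l (by linarith) hl)
  have a3 := one_add_mul_le_pow (a := -2 * μ) (by linarith) (n + 1)
  push_cast at a3
  have a4 : B l (pt (n + 1)) ≤ B l (up (n + 1)) := B_mono l fun m => by
    unfold pt up
    split_ifs <;> first | omega | norm_num
  have a5 := B_nonneg l (up_nonneg (n + 1))
  set q := B l (up (n + 1))
  have a6 : exp (-((n + 1) / 2 + 1)) * (((n + 1) / 2) ^ (n + 1) * (1 / 2)) ≤
      exp 1 * √(n + 1) * ((n + 1) / exp 1) ^ (n + 1) * q := by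
    refine le_trans ?_ (a1.trans (mul_le_mul (fact_le n) a4 (B_nonneg l (pt_nonneg _))
      (by positivity)))
    rw [mul_pow]
    exact mul_le_mul a2 (mul_le_mul_of_nonneg_left (by linarith) (by positivity)) (by positivity)
      ((exp_pos _).le.trans a2)
  have a7 : exp 1 ^ (n + 1) = exp ((n + 1) / 2) * exp ((n + 1) / 2) := by
    rw [← exp_add, ← exp_nat_mul]
    congr 1
    push_cast
    ring
  have a8 : exp 1 ≤ 3 := by linarith [exp_one_lt_d9]
  rw [div_pow, div_pow, a7, exp_neg, exp_add, pow_succ (2 : ℝ)] at a6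
  have s0 : 0 < √((n : ℝ) + 1) := by positivity
  set E := exp (((n : ℝ) + 1) / 2)
  have E0 : 0 < E := exp_pos _
  have e0 := exp_pos (1 : ℝ)
  set X := ((n : ℝ) + 1) ^ (n + 1)
  have X0 : 0 < X := by positivity
  have a9 : E ≤ 4 * (exp 1 * exp 1) * (√(n + 1) * (2 ^ n * q)) := by
    have := mul_le_mul_of_nonneg_left a6
      (by positivity : 0 ≤ 4 * exp 1 * E * E * 2 ^ n / X)
    refine le_trans (le_of_eq ?_) (this.trans (le_of_eq ?_)) <;> field_simp
    norm_num
  rw [div_div, div_le_iff₀ (by positivity)]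
  have : 0 ≤ √((n : ℝ) + 1) * (2 ^ n * q) := by positivity
  nlinarith [mul_le_mul a8 a8 e0.le (by norm_num)]

theorem tl_le (n : ℕ) (l : List ℕ) (h : rs l ≤ n + 1) :
    64 * (2 ^ n * B l (tl (240 * (n + 1)))) ≤ 1 := by
  have h1 : B l (tl (240 * (n + 1))) ≤ (1 / 2) ^ (240 * (n + 1)) * B l (fun m => 162 ^ m) := by
    rw [← B_smul]
    refine B_mono l fun m => ?_
    unfold tl
    split_ifs with h
    · rw [show (162 : ℝ) = 2 * 81 by norm_num, mul_pow, ← mul_assoc]
      refine le_mul_of_one_le_left (by positivity) ?_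
      rw [one_div, inv_pow, inv_mul_eq_div, one_le_div (by positivity)]
      exact pow_le_pow_right₀ (by norm_num) h.le
    · positivity
  have h2 := B_pow l (y := 162) (by norm_num)
  have h3 : exp ((162 - 1) * rs l) ≤ 2 ^ (233 * (n + 1)) := by
    rw [← exp_log (by positivity : (0 : ℝ) < 2 ^ (233 * (n + 1))), log_pow]
    refine exp_le_exp.2 ?_
    push_cast
    have := log_two_gt_d9
    have n0 : (0 : ℝ) ≤ n := Nat.cast_nonneg n
    nlinarith
  have h4 := h1.trans (mul_le_mul_of_nonneg_left (h2.trans h3) (by positivity))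
  refine (mul_le_mul_of_nonneg_left (mul_le_mul_of_nonneg_left h4 (by positivity))
    (by norm_num)).trans ?_
  rw [one_div, inv_pow, inv_mul_eq_div, ← mul_div_assoc, ← mul_div_assoc,
    div_le_one (by positivity), show (64 : ℝ) = 2 ^ 6 by norm_num, ← pow_add, ← pow_add]
  exact pow_le_pow_right₀ (by norm_num) (by omega)

/-- The saving at level `r`. -/
noncomputable def sv (r : ℝ) : ℝ := exp (r / 2) / √r / 6000000

theorem sv_ge {r : ℝ} (h : 2000000000 ≤ r) : 24 ≤ sv r := by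
  have h1 := pow_div_factorial_le_exp (r / 2) (by linarith) 2
  have h2 : √r ≤ r := sqrt_le_iff.2 ⟨by linarith, by nlinarith⟩
  have h3 : 0 < √r := sqrt_pos.2 (by linarith)
  rw [sv, div_div, le_div_iff₀ (by positivity)]
  norm_num [Nat.factorial] at h1
  nlinarith

theorem err_le (n K T : ℕ) (Z : ℝ) (hK : (K : ℝ) ≤ 2 ^ n) (Z0 : 0 ≤ Z)
    (hZ : Z ≤ exp (exp 6 * (n + 1) * exp ((n + 1) / 2) + 2)) (hT : (T : ℝ) + 1 ≤ 15 * sv (n + 1)) :
    (1 + K * Z ^ (240 * (n + 1))) ^ (2 * (T + 1)) ≤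
      exp (exp (n + 1) * (n + 1) * √(n + 1) / 2) := by
  have b1 : (K : ℝ) ≤ exp (n + 1) := by
    refine hK.trans ?_
    rw [exp_add, ← mul_one (n : ℝ), exp_nat_mul]
    have := add_one_le_exp (1 : ℝ)
    exact (pow_le_pow_left₀ (by norm_num) (by linarith) n).trans
      (le_mul_of_one_le_right (by positivity) (by linarith))
  have b2 := pow_le_pow_left₀ Z0 hZ (240 * (n + 1))
  rw [← exp_nat_mul] at b2
  have b3 := mul_le_mul b1 b2 (by positivity) (exp_pos _).le
  rw [← exp_add] at b3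
  push_cast at b3
  have r1 : (1 : ℝ) ≤ n + 1 := by linarith [(Nat.cast_nonneg n : (0 : ℝ) ≤ n)]
  have X0 : 0 ≤ 1 + K * Z ^ (240 * (n + 1)) := by positivity
  generalize K * Z ^ (240 * (n + 1)) = X at b3 X0 ⊢
  generalize (n : ℝ) + 1 = r at b3 r1 hT ⊢
  have e6 : exp 6 ≤ 404 := by
    have := pow_le_pow_left₀ (exp_pos 1).le exp_one_lt_d9.le 6
    rw [← exp_nat_mul] at this
    norm_num at this
    linarith
  have E1 : 1 ≤ exp (r / 2) := one_le_exp (by positivity)
  have s0 : 0 < √r := by positivity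
  have b5 : sv r * (r * r * exp (r / 2)) = exp r * r * √r / 6000000 := by
    have h1 : exp r = exp (r / 2) * exp (r / 2) := by rw [← exp_add, add_halves]
    have h2 : r * r * exp (r / 2) = r * (√r * √r) * exp (r / 2) := by
      rw [mul_self_sqrt (by linarith)]
    rw [sv, h1, h2]
    field_simp
  generalize exp (r / 2) = E at *
  have W0 : 0 ≤ r * r * E := by positivity
  have c3 : r ≤ r * r * E := by
    rw [mul_assoc]
    exact le_mul_of_one_le_right (by linarith) (one_le_mul_of_one_le_of_one_le r1 E1)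
  have c5 := mul_le_mul_of_nonneg_right e6 W0
  have c6 : r + 240 * r * (exp 6 * r * E + 2) = 481 * r + 240 * (exp 6 * (r * r * E)) := by ring
  rw [c6] at b3
  have c1 := one_le_exp (by positivity : 0 ≤ 481 * r + 240 * (exp 6 * (r * r * E)))
  have c2 := add_one_le_exp (1 : ℝ)
  have c4 : exp (481 * r + 240 * (exp 6 * (r * r * E))) * exp 1 ≤ exp (100000 * (r * r * E)) := by
    rw [← exp_add]
    exact exp_le_exp.2 (by linarith)
  have c7 := mul_le_mul_of_nonneg_left (show 2 ≤ exp 1 by linarith) (zero_le_one.trans c1)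
  refine (pow_le_pow_left₀ X0 (show _ ≤ exp (100000 * (r * r * E)) by linarith) _).trans ?_
  rw [← exp_nat_mul]
  refine exp_le_exp.2 ?_
  have b6 := mul_le_mul_of_nonneg_right hT W0
  push_cast
  linarith

theorem level (n : ℕ) (hn : 2000000000 ≤ n) (N : ℕ) : ∃ (l : List ℕ) (K : ℕ), l.Nodup ∧
    (∀ p ∈ l, p.Prime) ∧ K ≤ 2 ^ n ∧ 0 < K ∧
    (#{t ∈ range N | ∀ k < K, w l (t + k) < n + 1} : ℝ) ≤
      N * (10 * exp (-(3 / 8 * sv (n + 1)))) + exp (exp (n + 1) * (n + 1) * √(n + 1) / 2) := by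
  obtain ⟨l, l1, l2, l3, l4, l5⟩ := exists_primes n (by omega)
  have n0 : (2000000000 : ℝ) ≤ n := by exact_mod_cast hn
  have q1 := q_ge n (by omega) l (fun p h => (l2 p h).2) l3 l4
  have t1 := sv_ge (r := n + 1) (by linarith)
  set τ := sv (n + 1) with hτ
  set q := B l (up (n + 1)) with hq
  have q2 : τ ≤ 2 ^ n * q := by
    refine le_trans ?_ q1
    exact div_le_div_of_nonneg_left (by positivity) (by norm_num) (by norm_num)
  have q0 : 0 < q := (mul_pos_iff_of_pos_left (by positivity)).1 (show 0 < 2 ^ n * q by linarith)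
  have q3 : q ≤ 1 := (B_mono l (up_le _)).trans (B_const l 1).le
  set K := ⌈τ / q⌉₊ with hK
  have K1 : K ≤ 2 ^ n := Nat.ceil_le.2 (by rw [div_le_iff₀ q0]; push_cast; linarith)
  have K1' : (K : ℝ) ≤ 2 ^ n := by exact_mod_cast K1
  have K2 : τ ≤ K * q := (div_le_iff₀ q0).1 (Nat.le_ceil _)
  have K3 : K * q ≤ τ + 1 := by
    have := mul_le_mul_of_nonneg_right (Nat.ceil_lt_add_one (by positivity : 0 ≤ τ / q)).le q0.le
    rw [add_mul, div_mul_cancel₀ _ q0.ne'] at this
    linarith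
  set T := ⌊7 * (τ + 1)⌋₊ with hT
  have T1 : 7 * (τ + 1) ≤ T + 1 := (Nat.lt_floor_add_one _).le
  have T2 : (T : ℝ) ≤ 7 * (τ + 1) := Nat.floor_le (by positivity)
  have hs : rs l ≤ n + 1 := by
    have : (1 : ℝ) / 2 ^ n ≤ 1 := (div_le_one (by positivity)).2 (one_le_pow₀ (by norm_num))
    linarith
  have hη : 64 * (K * B l (tl (240 * (n + 1)))) ≤ 1 := le_trans (mul_le_mul_of_nonneg_left
    (mul_le_mul_of_nonneg_right K1' (B_nonneg l (tl_nonneg _))) (by norm_num)) (tl_le n l hs)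
  refine ⟨l, K, l1, fun p h => (l2 p h).1, K1, Nat.ceil_pos.2 (by positivity), (core K l l1
    (fun p h => ⟨(l2 p h).1, K1.trans (l2 p h).2⟩) (r := n + 1) (R := 240 * (n + 1)) (by omega)
    hη T N).trans (add_le_add (mul_le_mul_of_nonneg_left ?_ (Nat.cast_nonneg N)) ?_)⟩
  · rw [← hq]
    have a1 : exp (-(3 / 8 * (K * q))) ≤ exp (-(3 / 8 * τ)) := exp_le_exp.2 (by linarith)
    have a2 : (1 / 4 : ℝ) ^ (T + 1) = exp (-((T + 1) * (2 * log 2))) := by
      have : exp (-(2 * log 2)) = 1 / 4 := by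
        rw [exp_neg, two_mul, exp_add, exp_log (by norm_num)]
        norm_num
      rw [← this, ← exp_nat_mul]
      congr 1
      push_cast
      ring
    have a3 : exp (8 * (K * q)) * (1 / 4) ^ (T + 1) ≤ exp (-(3 / 8 * τ)) := by
      rw [a2, ← exp_add]
      refine exp_le_exp.2 ?_
      have := log_two_gt_d9
      nlinarith
    linarith
  · exact err_le n K T _ K1' (by positivity) l5 (by linarith)

theorem two_pow_le (l : List ℕ) (hl : l.Nodup) (hp : ∀ p ∈ l, p.Prime) {m : ℕ} (hm : m ≠ 0) :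
    2 ^ w l m ≤ m.divisors.card := by
  have h1 : w l m ≤ m.primeFactors.card := by
    rw [w, List.countP_eq_length_filter, ← List.toFinset_card_of_nodup (hl.filter _)]
    refine card_le_card fun p h => ?_
    simp only [List.mem_toFinset, List.mem_filter, decide_eq_true_eq] at h
    exact Nat.mem_primeFactors.2 ⟨hp p h.1, h.2, hm⟩
  rw [Nat.card_divisors hm]
  refine (Nat.pow_le_pow_right (by norm_num) h1).trans (pow_card_le_prod _ _ _ fun p h => ?_)
  have := Nat.mem_primeFactors.1 h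
  have := this.1.factorization_pos_of_dvd hm this.2.1
  omega

theorem count_le (n : ℕ) (hn : 2000000000 ≤ n) (x : ℕ) (S : Finset ℕ)
    (hS : ∀ a ∈ S, 1 ≤ a ∧ a ≤ x ∧ ∀ m, 1 ≤ m → m < a → m + m.divisors.card < a + 2 ^ n) :
    (S.card : ℝ) ≤ 2 ^ n + (x * (10 * exp (-(3 / 8 * sv (n + 1)))) +
      exp (exp (n + 1) * (n + 1) * √(n + 1) / 2)) := by
  obtain ⟨l, K, l1, l2, K1, K0, h⟩ := level n hn x
  refine le_trans ?_ (add_le_add_right h _)
  have : S ⊆ Icc 1 (2 ^ n) ∪
      ({t ∈ range x | ∀ k < K, w l (t + k) < n + 1}.image fun t => t + K) := fun a ha => by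
    obtain ⟨a1, a2, a3⟩ := hS a ha
    rw [mem_union, mem_Icc, mem_image]
    by_cases h1 : a ≤ 2 ^ n
    · exact Or.inl ⟨a1, h1⟩
    refine Or.inr ⟨a - K, mem_filter.2 ⟨mem_range.2 (by omega), fun k hk => ?_⟩, by omega⟩
    have b1 := a3 (a - K + k) (by omega) (by omega)
    have b2 := two_pow_le l l1 l2 (m := a - K + k) (by omega)
    refine (Nat.pow_lt_pow_iff_right (a := 2) (by norm_num)).1 ?_
    rw [pow_succ]
    omega
  have h2 := (card_le_card this).trans ((card_union_le _ _).trans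
    (Nat.add_le_add_left card_image_le _))
  rw [Nat.card_Icc, Nat.add_sub_cancel] at h2
  exact_mod_cast h2

theorem exists_level (a : ℕ → ℝ) (ha : ∀ n : ℕ, (n : ℝ) ≤ a n) (n0 : ℕ) {Y : ℝ} (h : a n0 ≤ Y) :
    ∃ n, n0 ≤ n ∧ a n ≤ Y ∧ Y < a (n + 1) := by
  classical
  have hex : ∃ j : ℕ, Y < a (n0 + j + 1) := ⟨⌈Y⌉₊, by
    have h1 := ha (n0 + ⌈Y⌉₊ + 1)
    have h2 := Nat.le_ceil Y
    push_cast at h1
    linarith [(Nat.cast_nonneg n0 : (0 : ℝ) ≤ n0)]⟩
  refine ⟨n0 + Nat.find hex, by omega, ?_, Nat.find_spec hex⟩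
  rcases Nat.eq_zero_or_pos (Nat.find hex) with h0 | h0
  · rwa [h0]
  · have := Nat.find_min hex (m := Nat.find hex - 1) (by omega)
    rw [show n0 + (Nat.find hex - 1) + 1 = n0 + Nat.find hex by omega] at this
    exact not_lt.1 this

theorem rpow_lt (n : ℕ) (hn : 2000000000 ≤ n) {Y : ℝ} (Y0 : 0 ≤ Y)
    (h : Y < exp (n + 1 + 1) * (n + 1 + 1) * √(n + 1 + 1)) : Y ^ (2 / 3 : ℝ) < 2 ^ n := by
  have n0 : (2000000000 : ℝ) ≤ n := by exact_mod_cast hn
  refine lt_of_pow_lt_pow_left₀ 3 (by positivity) ?_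
  rw [← rpow_natCast, ← rpow_mul Y0, show (2 / 3 * (3 : ℕ) : ℝ) = (2 : ℕ) by norm_num,
    rpow_natCast]
  refine (pow_lt_pow_left₀ h Y0 (by norm_num)).trans_le ?_
  have h1 : ((2 : ℝ) ^ n) ^ 3 = exp (3 * (n * log 2)) := by
    rw [← log_pow, show (3 : ℝ) = (3 : ℕ) by norm_num, exp_nat_mul, exp_log (by positivity)]
  have h2 := pow_div_factorial_le_exp (7 / 100 * (n + 1 + 1)) (by positivity) 4
  have h3 : exp ((n : ℝ) + 1 + 1) ^ 2 * exp (7 / 100 * (n + 1 + 1)) ≤ exp (3 * (n * log 2)) := by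
    rw [← exp_nat_mul, ← exp_add]
    refine exp_le_exp.2 ?_
    have := mul_le_mul_of_nonneg_left log_two_gt_d9.le (Nat.cast_nonneg n : (0 : ℝ) ≤ n)
    push_cast
    linarith
  rw [h1, mul_pow, mul_pow, sq_sqrt (by positivity), mul_assoc]
  refine le_trans (mul_le_mul_of_nonneg_left (le_trans ?_ h2) (by positivity)) h3
  have h4 : (2000000000 : ℝ) ≤ n + 1 + 1 := by linarith
  generalize (n : ℝ) + 1 + 1 = s at h4
  have h5 : 0 ≤ s ^ 3 := by positivity
  norm_num [Nat.factorial]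
  nlinarith [mul_le_mul_of_nonneg_left h4 h5]

theorem sv_lower {r Y : ℝ} (r1 : 1 ≤ r) (h1 : exp r ≤ Y)
    (h2 : Y < exp (r + 1) * (r + 1) * √(r + 1)) :
    √Y / log Y ^ (5 / 4 : ℝ) / 18000000 ≤ sv r := by
  have Y0 : 0 < Y := (exp_pos r).trans_le h1
  have L1 : r ≤ log Y := (le_log_iff_exp_le Y0).2 h1
  set u := log Y ^ (1 / 4 : ℝ) with hu
  have L0 : 0 ≤ log Y := by linarith
  have u0 : 0 < u := rpow_pos_of_pos (by linarith) _
  have u4 : u ^ 4 = log Y := by
    rw [hu, ← rpow_natCast, ← rpow_mul L0]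
    norm_num
  have u5 : log Y ^ (5 / 4 : ℝ) = u ^ 5 := by
    rw [hu, ← rpow_natCast, ← rpow_mul L0]
    norm_num
  have a1 : √r ≤ u ^ 2 := sqrt_le_iff.2 ⟨by positivity, by linarith⟩
  have a2 : √(r + 1) ≤ 3 / 2 * u ^ 2 := sqrt_le_iff.2 ⟨by positivity, by linarith⟩
  have a3 : exp (r + 1) ≤ 3 * exp (r / 2) ^ 2 := by
    rw [exp_add, ← exp_nat_mul, show ((2 : ℕ) : ℝ) * (r / 2) = r by push_cast; ring, mul_comm]
    exact mul_le_mul_of_nonneg_right (by linarith [exp_one_lt_d9]) (exp_pos _).le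
  have a4 : √Y ≤ 3 * exp (r / 2) * u ^ 3 := sqrt_le_iff.2 ⟨by positivity, h2.le.trans <|
    (mul_le_mul (mul_le_mul a3 (show r + 1 ≤ 2 * u ^ 4 by linarith) (by linarith) (by positivity))
      a2 (sqrt_nonneg _) (by positivity)).trans (le_of_eq (by ring))⟩
  have s0 : 0 < √r := by positivity
  rw [u5, sv]
  calc _ ≤ 3 * exp (r / 2) * u ^ 3 / u ^ 5 / 18000000 := by gcongr
    _ = exp (r / 2) / u ^ 2 / 6000000 := by field_simp; norm_num
    _ ≤ _ := by gcongr

theorem main : ∃ x₀ : ℕ, ∀ x : ℕ, x₀ ≤ x → ∀ S : Finset ℕ,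
    (∀ a ∈ S, 1 ≤ a ∧ a ≤ x ∧ ∀ m, 1 ≤ m → m < a →
      ((m + m.divisors.card : ℕ) : ℝ) ≤ a + log x ^ (2 / 3 : ℝ)) →
    (S.card : ℝ) ≤ x * exp (-(1 / 72000000 * (√(log x) / log (log x) ^ (5 / 4 : ℝ)))) := by
  set a : ℕ → ℝ := fun n => exp (n + 1) * (n + 1) * √(n + 1) with ha
  have a1 : ∀ n : ℕ, exp (n + 1) ≤ a n := fun n => by
    have : (1 : ℝ) ≤ n + 1 := by linarith [(Nat.cast_nonneg n : (0 : ℝ) ≤ n)]
    rw [ha]
    simp only [mul_assoc]
    exact le_mul_of_one_le_right (exp_pos _).le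
      (one_le_mul_of_one_le_of_one_le this (one_le_sqrt.2 this))
  refine ⟨⌈exp (a 2000000000)⌉₊, fun x hx S hS => ?_⟩
  have x1 : exp (a 2000000000) ≤ x := Nat.ceil_le.1 hx
  have x0 : (0 : ℝ) < x := (exp_pos _).trans_le x1
  obtain ⟨n, n1, n2, n3⟩ := exists_level a
    (fun n => by linarith [a1 n, add_one_le_exp ((n : ℝ) + 1)]) 2000000000
    ((le_log_iff_exp_le x0).2 x1)
  have n0 : (2000000000 : ℝ) ≤ n := by exact_mod_cast n1
  have Y1 := (a1 n).trans n2
  simp only [ha] at n2 n3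
  push_cast at n3
  have Y0 : 0 < log x := (exp_pos _).trans_le Y1
  have b1 := rpow_lt n n1 Y0.le n3
  have b2 := sv_lower (by linarith) Y1 n3
  have b3 := sv_ge (r := n + 1) (by linarith)
  have b4 := count_le n n1 x S fun b hb => ⟨(hS b hb).1, (hS b hb).2.1, fun m m1 m2 => by
    have := ((hS b hb).2.2 m m1 m2).trans_lt (add_lt_add_right b1 _)
    exact_mod_cast this⟩
  have b5 : sv (n + 1) ≤ log x := by
    have h1 : 1 ≤ √((n : ℝ) + 1) := one_le_sqrt.2 (by linarith)
    have h2 : exp (((n : ℝ) + 1) / 2) ≤ exp (n + 1) := exp_le_exp.2 (by linarith)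
    rw [sv, div_div]
    exact (div_le_self (exp_pos _).le (by linarith)).trans (h2.trans Y1)
  have b6 : (2 : ℝ) ^ n ≤ exp (log x / 2) := by
    have h1 : (2 : ℝ) ^ n ≤ exp n := by
      rw [← mul_one (n : ℝ), exp_nat_mul]
      exact pow_le_pow_left₀ (by norm_num) (by linarith [add_one_le_exp (1 : ℝ)]) n
    have h2 := pow_div_factorial_le_exp ((n : ℝ) + 1) (by linarith) 2
    norm_num [Nat.factorial] at h2
    exact h1.trans (exp_le_exp.2 (by nlinarith))
  have b7 : exp (log x / 2) ≤ x * exp (-(3 / 8 * sv (n + 1))) := by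
    conv_rhs => rw [← exp_log x0, ← exp_add]
    exact exp_le_exp.2 (by linarith)
  have b8 := exp_le_exp.2 (div_le_div_of_nonneg_right n2 (by norm_num : (0 : ℝ) ≤ 2))
  have b9 : 12 * exp (-(3 / 8 * sv (n + 1))) ≤
      exp (-(1 / 72000000 * (√(log x) / log (log x) ^ (5 / 4 : ℝ)))) := by
    have h1 := pow_div_factorial_le_exp (3 : ℝ) (by norm_num) 2
    have h2 : 12 ≤ exp 3 := by
      have := sum_le_exp_of_nonneg (x := 3) (by norm_num) 4
      norm_num [sum_range_succ, Nat.factorial] at this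
      linarith
    refine (mul_le_mul_of_nonneg_right h2 (exp_pos _).le).trans ?_
    rw [← exp_add]
    exact exp_le_exp.2 (by linarith)
  linarith [mul_le_mul_of_nonneg_left b9 x0.le]

end Pool.Agent.Lib.MP_24d810_nt
end
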